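import Pool.Agent.AKW.Eng
import Pool.Agent.AKU.Sym

set_option autoImplicit false

/-!
# Rooted certificates with second-order rows: all orders of the three free points
-/

namespace Pool.Agent.AKW

open Finset Pool.Agent.AKU

/-- sum over the six orders -/
def s6 {ι : Type*} (g : ι → ι → ι → ℤ) (x y z : ι) : ℤ :=
  g x y z + g x z y + g y x z + g y z x + g z x y + g z y x

theorem s6_perm1 {ι : Type*} (g : ι → ι → ι → ℤ) (x y z : ι) : s6 g x y z = s6 g y x z := by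
  unfold s6; ring

theorem s6_perm2 {ι : Type*} (g : ι → ι → ι → ℤ) (x y z : ι) : s6 g x y z = s6 g x z y := by
  unfold s6; ring

namespace Tb

variable (T : Tb)

/-- the blocks of the main check are the positive semidefinite blocks plus the rows -/
def Spl : Prop := ∀ p i j, T.Mt p i j = T.Qt p i j + (T.XO p i j + T.XO p j i)

/-- the certificate function at an ordered triple of free points: types `p1 p2 p3`, codes of the
pairs `(y1, y2)`, `(y1, y3)`, `(y2, y3)`, non-acute indicator `n` of the triple -/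
noncomputable def GV (p1 p2 p3 c12 c13 c23 n : Nat) : ℤ :=
  T.Q0 p1 p2 + T.Z p1 p2 * (9 * n - 4) + T.Qt p1 (T.fl p1 p2 c12) (T.fl p1 p3 c13) +
    2 * T.XO p1 (T.fl p1 p2 c12) (T.fl p1 p3 c13) +
    T.Mu p1 * (4 - 9 * n) + T.NN p1 c23

/-- the configuration of three free points -/
structure Cf (N : Nat) {ι : Type*} (τ : ι → Nat) (c : ι → ι → Nat) (d : ι → ι → ι → Nat)
    (F : Set ι) : Prop where
  ty : ∀ x ∈ F, τ x < N
  lt : ∀ x ∈ F, ∀ y ∈ F, x ≠ y → c x y < 512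
  vp : ∀ x ∈ F, ∀ y ∈ F, x ≠ y → T.vp (τ x) (τ y) (c x y) = true
  rv : ∀ x ∈ F, ∀ y ∈ F, x ≠ y → c y x = rv3 (c x y)
  dlt : ∀ x ∈ F, ∀ y ∈ F, ∀ z ∈ F, x ≠ y → y ≠ z → x ≠ z → d x y z < 8
  tst : ∀ x ∈ F, ∀ y ∈ F, ∀ z ∈ F, x ≠ y → y ≠ z → x ≠ z →
    T.tst (c x y) (c x z) (c y z) (d x y z) = true
  na1 : ∀ x ∈ F, ∀ y ∈ F, ∀ z ∈ F, x ≠ y → y ≠ z → x ≠ z → na (d x y z) = na (d x z y)
  na2 : ∀ x ∈ F, ∀ y ∈ F, ∀ z ∈ F, x ≠ y → y ≠ z → x ≠ z → na (d x y z) = na (d y x z)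

variable {T}

variable (T) in
/-- the certificate function at three points -/
noncomputable def GF {ι : Type*} (τ : ι → Nat) (c : ι → ι → Nat) (d : ι → ι → ι → Nat)
    (x y z : ι) : ℤ :=
  T.GV (τ x) (τ y) (τ z) (c x y) (c x z) (c y z) (na (d x y z))

theorem NN_rv3 (p s : Nat) : T.NN p (rv3 s) = T.NN p s := by
  unfold NN
  rw [na0_rv3, na1_rv3, na2_rv3]

theorem s6_eq {N : Nat} {ι : Type*} {τ : ι → Nat} {c : ι → ι → Nat} {d : ι → ι → ι → Nat}
    {F : Set ι} (h : T.Cf N τ c d F) (hS : T.Spl) (hQ0 : ∀ p q, T.Q0 p q = T.Q0 q p)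
    (hZ : ∀ p q, T.Z p q = T.Z q p)
    (hQt : ∀ p i j, T.Qt p i j = T.Qt p j i)
    {x y z : ι} (hx : x ∈ F) (hy : y ∈ F) (hz : z ∈ F)
    (hxy : x ≠ y) (hyz : y ≠ z) (hxz : x ≠ z) :
    s6 (T.GF τ c d) x y z =
      2 * T.VV (τ x) (τ y) (τ z) (c x y) (c x z) (c y z) (na (d x y z)) := by
  have r1 := h.rv x hx y hy hxy
  have r2 := h.rv x hx z hz hxz
  have r3 := h.rv y hy z hz hyz
  -- all orders of d
  have e1 : na (d x z y) = na (d x y z) := (h.na1 x hx y hy z hz hxy hyz hxz).symm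
  have e2 : na (d y x z) = na (d x y z) := (h.na2 x hx y hy z hz hxy hyz hxz).symm
  have e3 : na (d y z x) = na (d x y z) := by
    rw [← h.na1 y hy x hx z hz hxy.symm hxz hyz, e2]
  have e4 : na (d z x y) = na (d x y z) := by
    rw [← h.na2 x hx z hz y hy hxz hyz.symm hxy, e1]
  have e5 : na (d z y x) = na (d x y z) := by
    rw [← h.na1 z hz x hx y hy hxz.symm hxy hyz.symm, e4]
  unfold s6 GF GV VV
  rw [e1, e2, e3, e4, e5, r1, r2, r3]
  simp only [NN_rv3]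
  rw [hQ0 (τ y) (τ x), hQ0 (τ z) (τ x), hQ0 (τ z) (τ y)]
  rw [hZ (τ y) (τ x), hZ (τ z) (τ x), hZ (τ z) (τ y)]
  rw [hS (τ x), hS (τ y), hS (τ z)]
  rw [hQt (τ x) (T.fl (τ x) (τ z) (c x z)) (T.fl (τ x) (τ y) (c x y)),
    hQt (τ y) (T.fl (τ y) (τ z) (c y z)) (T.fl (τ y) (τ x) (rv3 (c x y))),
    hQt (τ z) (T.fl (τ z) (τ y) (rv3 (c y z))) (T.fl (τ z) (τ x) (rv3 (c x z)))]
  ring

/-- **All orders**: if `VV ≤ 0` for sorted types then the symmetrised certificate function is at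
most zero at all triples of different free points. -/
theorem s6_le {N : Nat} {ι : Type*} {τ : ι → Nat} {c : ι → ι → Nat} {d : ι → ι → ι → Nat}
    {F : Set ι} (h : T.Cf N τ c d F) (hS : T.Spl) (hQ0 : ∀ p q, T.Q0 p q = T.Q0 q p)
    (hZ : ∀ p q, T.Z p q = T.Z q p)
    (hQt : ∀ p i j, T.Qt p i j = T.Qt p j i)
    (hK : ∀ p q r A B C d, p ≤ q → q ≤ r → r < N → A < 512 → B < 512 → C < 512 →
      T.vp p q A = true → T.vp p r B = true → T.vp q r C = true → d < 8 →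
      T.tst A B C d = true → T.VV p q r A B C (na d) ≤ 0)
    {x y z : ι} (hx : x ∈ F) (hy : y ∈ F) (hz : z ∈ F)
    (hxy : x ≠ y) (hyz : y ≠ z) (hxz : x ≠ z) : s6 (T.GF τ c d) x y z ≤ 0 := by
  have key : ∀ x ∈ F, ∀ y ∈ F, ∀ z ∈ F, x ≠ y → y ≠ z → x ≠ z → τ x ≤ τ y → τ y ≤ τ z →
      s6 (T.GF τ c d) x y z ≤ 0 := by
    intro x hx y hy z hz hxy hyz hxz h1 h2
    rw [s6_eq h hS hQ0 hZ hQt hx hy hz hxy hyz hxz]
    have := hK (τ x) (τ y) (τ z) (c x y) (c x z) (c y z) (d x y z) h1 h2 (h.ty z hz)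
      (h.lt x hx y hy hxy) (h.lt x hx z hz hxz) (h.lt y hy z hz hyz) (h.vp x hx y hy hxy)
      (h.vp x hx z hz hxz) (h.vp y hy z hz hyz) (h.dlt x hx y hy z hz hxy hyz hxz)
      (h.tst x hx y hy z hz hxy hyz hxz)
    linarith
  rcases le_total (τ x) (τ y) with h1 | h1
  · rcases le_total (τ y) (τ z) with h2 | h2
    · exact key x hx y hy z hz hxy hyz hxz h1 h2
    · rcases le_total (τ x) (τ z) with h3 | h3
      · rw [s6_perm2]
        exact key x hx z hz y hy hxz hyz.symm hxy h3 h2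
      · rw [s6_perm2, s6_perm1]
        exact key z hz x hx y hy hxz.symm hxy hyz.symm h3 h1
  · rcases le_total (τ x) (τ z) with h2 | h2
    · rw [s6_perm1]
      exact key y hy x hx z hz hxy.symm hxz hyz h1 h2
    · rcases le_total (τ y) (τ z) with h3 | h3
      · rw [s6_perm1, s6_perm2]
        exact key y hy z hz x hx hyz hxz.symm hxy.symm h3 h2
      · rw [s6_perm1, s6_perm2, s6_perm1]
        exact key z hz y hy x hx hyz.symm hxy.symm hxz.symm h3 h1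

end Tb

end Pool.Agent.AKW
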