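import Pool.Agent.AKU.PsdK

set_option autoImplicit false

/-!
# Rooted certificates with second-order rows: the engine

Three roots and three free points, as in `AKU`.  A free point has a type `p < nt`; a pair of free
points of types `p`, `q` has a code `s < 512`, whose three octal digits are the states of the
triples (root, first point, second point); a state is a number `d < 8` with `d % 4 = 0` iff the
triangle is acute.  The multipliers `mu`, `nu` of the degree rows are integers of any sign; there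
is a table `Z` of the second-order row (types of `x`, `y`) times `9 [x y t non-acute] - 4`, and
there are rows `k < nk` with a multiplier `Lam k p f` (`p` type of the first point, `f` flag of
the third point) and a value `Ev k p g` (`g` flag of the second point).
-/

namespace Pool.Agent.AKW

open Finset Pool.Agent.AKU

/-- record of a pair of free points: code, its digits, pattern of the non-acute triples, flag
index of the second point seen from the first, flag index of the first seen from the second,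
the rows of these flags -/
structure Rc where
  s : Nat
  a : Nat
  b : Nat
  c : Nat
  n : Nat
  f : Nat
  g : Nat
  u : Nat
  w : Nat

/-- flag index from a list of records -/
noncomputable def fs (l : List Rc) (s : Nat) : Nat :=
  List.rec (motive := fun _ => Nat) 99999
    (fun x _ ih => Bool.rec (motive := fun _ => Nat) ih x.f (Nat.beq x.s s)) l

/-- the data of a certificate; `q0, z, mu, nu` are stored with offsets -/
structure Tb where
  nt : Nat
  TAB : Nat
  vp : Nat → Nat → Nat → Bool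
  E : Nat → Nat → List Rc
  nb : Nat → Nat
  /-- rows used by the main check: positive semidefinite part plus rows -/
  blk : Nat → List Nat
  /-- rows of the positive semidefinite part -/
  blq : Nat → List Nat
  off : Nat
  q0 : Nat → Nat → Nat
  off0 : Nat
  z : Nat → Nat → Nat
  offz : Nat
  mu : Nat → Nat
  offm : Nat
  nu : Nat → Nat → Nat
  offn : Nat
  nk : Nat
  lam : Nat → Nat → Nat → Nat
  ev : Nat → Nat → Nat → Nat
  offe : Nat

namespace Tb

variable (T : Tb)

noncomputable def fl (p q s : Nat) : Nat := fs (T.E p q) s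

/-- matrix of the block with no further point -/
def Q0 (p q : Nat) : ℤ := if p < T.nt ∧ q < T.nt then (T.q0 p q : ℤ) - T.off0 else 0

/-- matrix of the second-order row -/
def Z (p q : Nat) : ℤ := if p < T.nt ∧ q < T.nt then (T.z p q : ℤ) - T.offz else 0

/-- matrix of the block of the type `p` -/
noncomputable def Qt (p i j : Nat) : ℤ :=
  if i < T.nb p ∧ j < T.nb p then (lk (nthL (T.blq p) i) j : ℤ) - T.off else 0

/-- matrix used by the main check -/
noncomputable def Mt (p i j : Nat) : ℤ :=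
  if i < T.nb p ∧ j < T.nb p then (lk (nthL (T.blk p) i) j : ℤ) - T.off else 0

/-- value of the row `k` at a flag -/
def Ev (k p i : Nat) : ℤ := (T.ev k p i : ℤ) - T.offe

/-- the rows at the flags `i` (summation) and `j` (multiplier) -/
def XO (p i j : Nat) : ℤ :=
  if i < T.nb p ∧ j < T.nb p then - ∑ k ∈ range T.nk, (T.lam k p j : ℤ) * T.Ev k p i else 0

/-- multiplier of the degree row of a free point of type `p` -/
def Mu (p : Nat) : ℤ := (T.mu p : ℤ) - T.offm

/-- multiplier of the degree row of the root `k`, at a free point of type `p` -/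
def Nu (k p : Nat) : ℤ := (T.nu k p : ℤ) - T.offn

/-- the degree rows of the three roots at a point of type `p`; `s` is the code of the other two -/
def NN (p s : Nat) : ℤ :=
  T.Nu 0 p * (4 - 9 * na (dg0 s)) + T.Nu 1 p * (4 - 9 * na (dg1 s)) +
    T.Nu 2 p * (4 - 9 * na (dg2 s))

/-- the certificate function at three free points of types `p, q, r`, with pair codes `A, B, C`
and non-acute indicator `n` -/
noncomputable def VV (p q r A B C n : Nat) : ℤ :=
  (T.Q0 p q + T.Q0 p r + T.Q0 q r) +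
  (T.Z p q + T.Z p r + T.Z q r) * (9 * n - 4) +
  (T.Mt p (T.fl p q A) (T.fl p r B) + T.Mt q (T.fl q p (rv3 A)) (T.fl q r C) +
    T.Mt r (T.fl r p (rv3 B)) (T.fl r q (rv3 C))) +
  (T.Mu p + T.Mu q + T.Mu r) * (4 - 9 * n) +
  (T.NN p C + T.NN q B + T.NN r A)

/-- the three tests with the state `d` of the triple of free points -/
def tst (A B C d : Nat) : Bool :=
  T.TAB.testBit (512 * dg0 A + 64 * dg0 B + 8 * dg0 C + d) &&
  T.TAB.testBit (512 * dg1 A + 64 * dg1 B + 8 * dg1 C + d) &&
  T.TAB.testBit (512 * dg2 A + 64 * dg2 B + 8 * dg2 C + d)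

end Tb

/-! ### loops -/

noncomputable def allL (l : List Rc) (g : Rc → Bool) : Bool :=
  List.rec (motive := fun _ => Bool) true
    (fun x _ ih => Bool.rec (motive := fun _ => Bool) false ih (g x)) l

theorem allL_iff {l : List Rc} {g : Rc → Bool} : allL l g = true ↔ ∀ x ∈ l, g x = true := by
  induction l with
  | nil => simp [allL]
  | cons x l ih =>
    have : allL (x :: l) g = Bool.rec (motive := fun _ => Bool) false (allL l g) (g x) := rfl
    rw [this, List.forall_mem_cons]
    cases g x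
    · simp
    · simp [ih]

/-- mask of the states `d` allowed by the three roots -/
def msk (t0 t1 t2 : Nat) (C : Rc) : Nat :=
  Nat.land (Nat.land (Nat.shiftRight t0 (Nat.mul 8 C.a)) (Nat.shiftRight t1 (Nat.mul 8 C.b)))
    (Nat.land (Nat.shiftRight t2 (Nat.mul 8 C.c)) 255)

/-- `kk`: the states for which the inequality without `pen` is needed -/
noncomputable def chkC (kk t0 t1 t2 rq rr L R pen wp : Nat) (LC : List Rc) : Bool :=
  allL LC fun C =>
    Bool.rec (motive := fun _ => Bool)
      (Nat.ble (Nat.add L (Nat.add (lk rq C.f) (lk rr C.g))) (Nat.add R (lk wp C.n)))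
      (Bool.rec (motive := fun _ => Bool)
        (Nat.ble (Nat.add L (Nat.add (lk rq C.f) (lk rr C.g)))
          (Nat.add (Nat.add R (lk wp C.n)) pen))
        true (Nat.beq (msk t0 t1 t2 C) 0))
      (Nat.beq (Nat.land (msk t0 t1 t2 C) kk) 0)

noncomputable def chkB (kk t0 t1 t2 rp rq L R pen wp wq : Nat) (LB LC : List Rc) : Bool :=
  allL LB fun B =>
    chkC kk (Nat.shiftRight t0 (Nat.mul 64 B.a)) (Nat.shiftRight t1 (Nat.mul 64 B.b))
      (Nat.shiftRight t2 (Nat.mul 64 B.c)) rq B.w (Nat.add L (lk rp B.f))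
      (Nat.add R (lk wq B.n)) pen wp LC

/-- `wp, wq, wr`: packed root terms -/
noncomputable def chkA (kk TAB L R pen wp wq wr : Nat) (LA LB LC : List Rc) : Bool :=
  allL LA fun A =>
    chkB kk (Nat.shiftRight TAB (Nat.mul 512 A.a)) (Nat.shiftRight TAB (Nat.mul 512 A.b))
      (Nat.shiftRight TAB (Nat.mul 512 A.c)) A.u A.w L
      (Nat.add R (lk wr A.n)) pen wp wq LB LC

namespace Tb

variable (T : Tb)

/-- the records are right; `wn p` is the packed table `offw - NN p` -/
structure Ok (offw : Nat) (wn : Nat → Nat) : Prop where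
  mem : ∀ p q, p ≤ q → q < T.nt → ∀ s < 512, T.vp p q s = true → ∃ x ∈ T.E p q,
    x.a = dg0 s ∧ x.b = dg1 s ∧ x.c = dg2 s ∧ x.n = pat s ∧ x.f = T.fl p q s ∧
      x.g = T.fl q p (rv3 s) ∧ x.f < T.nb p ∧ x.g < T.nb q ∧ x.u = nthL (T.blk p) x.f ∧
      x.w = nthL (T.blk q) x.g
  pen : ∀ p < T.nt, ∀ n < 8, lk (wn p) n + 4 * (T.nu 0 p + T.nu 1 p + T.nu 2 p) +
    9 * T.offn * (n % 2 + n / 2 % 2 + n / 4) =
    offw + 12 * T.offn + 9 * (T.nu 0 p * (n % 2) + T.nu 1 p * (n / 2 % 2) + T.nu 2 p * (n / 4))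

/-- the check for three types -/
noncomputable def chkT (offw : Nat) (wn : Nat → Nat) (p q r : Nat) : Bool :=
  Bool.rec (motive := fun _ => Bool)
    (chkA 238 T.TAB
      ((T.q0 p q + T.q0 p r + T.q0 q r) + 5 * (T.z p q + T.z p r + T.z q r) +
        (15 * T.offm + 3 * offw))
      (3 * T.off0 + 15 * T.offz + 5 * (T.mu p + T.mu q + T.mu r) + 3 * T.off)
      (9 * ((T.z p q + T.z p r + T.z q r + 3 * T.offm) -
        (T.mu p + T.mu q + T.mu r + 3 * T.offz)))
      (wn p) (wn q) (wn r) (T.E p q) (T.E p r) (T.E q r))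
    (chkA 17 T.TAB
      ((T.q0 p q + T.q0 p r + T.q0 q r) + 4 * (T.mu p + T.mu q + T.mu r) +
        (12 * T.offz + 3 * offw))
      (3 * T.off0 + 4 * (T.z p q + T.z p r + T.z q r) + 12 * T.offm + 3 * T.off)
      (9 * ((T.mu p + T.mu q + T.mu r + 3 * T.offz) -
        (T.z p q + T.z p r + T.z q r + 3 * T.offm)))
      (wn p) (wn q) (wn r) (T.E p q) (T.E p r) (T.E q r))
    (Nat.ble (T.z p q + T.z p r + T.z q r + 3 * T.offm) (T.mu p + T.mu q + T.mu r + 3 * T.offz))

theorem testBit_msk (t0 t1 t2 : Nat) (C : Rc) (d : Nat) (hd : d < 8) :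
    (msk t0 t1 t2 C).testBit d = (t0.testBit (8 * C.a + d) && t1.testBit (8 * C.b + d) &&
      t2.testBit (8 * C.c + d)) := by
  have e : msk t0 t1 t2 C = ((t0 >>> (8 * C.a)) &&& (t1 >>> (8 * C.b))) &&&
    ((t2 >>> (8 * C.c)) &&& 255) := rfl
  have h255 : (255 : Nat).testBit d = true := by
    interval_cases d <;> decide
  rw [e]
  simp only [Nat.testBit_and, Nat.testBit_shiftRight, h255, Bool.and_true]

theorem beq0_of_testBit {m d : Nat} (hm : m.testBit d = true) : Nat.beq m 0 = false := by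
  rw [Bool.eq_false_iff]
  intro h0
  have : m = 0 := Nat.eq_of_beq_eq_true h0
  rw [this] at hm
  simp at hm

theorem NN_eq {offw : Nat} {wn : Nat → Nat} (ho : T.Ok offw wn) {p : Nat} (hp : p < T.nt)
    (s : Nat) : T.NN p s = (offw : ℤ) - lk (wn p) (pat s) := by
  have h := ho.pen p hp _ (Pool.Agent.AKU.Tb.pat_lt s)
  have h0 := Pool.Agent.AKU.Tb.na_le (dg0 s)
  have h1 := Pool.Agent.AKU.Tb.na_le (dg1 s)
  have h2 := Pool.Agent.AKU.Tb.na_le (dg2 s)
  have e0 : pat s % 2 = na (dg0 s) := by unfold pat; omega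
  have e1 : pat s / 2 % 2 = na (dg1 s) := by unfold pat; omega
  have e2 : pat s / 4 = na (dg2 s) := by unfold pat; omega
  rw [e0, e1, e2] at h
  have h' : (lk (wn p) (pat s) : ℤ) + 4 * (T.nu 0 p + T.nu 1 p + T.nu 2 p) +
    9 * T.offn * (na (dg0 s) + na (dg1 s) + na (dg2 s)) =
    offw + 12 * T.offn + 9 * (T.nu 0 p * na (dg0 s) + T.nu 1 p * na (dg1 s) +
      T.nu 2 p * na (dg2 s)) := by exact_mod_cast h
  unfold NN Nu
  linarith

theorem pat_lt' (s : Nat) : pat s < 8 := Pool.Agent.AKU.Tb.pat_lt s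

/-- the meaning of `chkA` at one combination -/
theorem chkA_one {kk TAB L R pen wp wq wr : Nat} {LA LB LC : List Rc}
    (h : chkA kk TAB L R pen wp wq wr LA LB LC = true) {x y z : Rc} (hx : x ∈ LA) (hy : y ∈ LB)
    (hz : z ∈ LC) {d : Nat} (hd : d < 8)
    (ht : (TAB.testBit (512 * x.a + 64 * y.a + 8 * z.a + d) &&
      TAB.testBit (512 * x.b + 64 * y.b + 8 * z.b + d) &&
      TAB.testBit (512 * x.c + 64 * y.c + 8 * z.c + d)) = true) :
    (kk.testBit d = true →
      L + lk x.u y.f + (lk x.w z.f + lk y.w z.g) ≤ R + lk wr x.n + lk wq y.n + lk wp z.n) ∧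
    L + lk x.u y.f + (lk x.w z.f + lk y.w z.g) ≤
      R + lk wr x.n + lk wq y.n + lk wp z.n + pen := by
  have h1 := allL_iff.1 (allL_iff.1 (allL_iff.1 h x hx) y hy) z hz
  set m := msk (Nat.shiftRight (Nat.shiftRight TAB (Nat.mul 512 x.a)) (Nat.mul 64 y.a))
    (Nat.shiftRight (Nat.shiftRight TAB (Nat.mul 512 x.b)) (Nat.mul 64 y.b))
    (Nat.shiftRight (Nat.shiftRight TAB (Nat.mul 512 x.c)) (Nat.mul 64 y.c)) z with hm
  have hmd : m.testBit d = true := by
    rw [hm, testBit_msk _ _ _ _ _ hd]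
    have e : ∀ u v w : Nat, (Nat.shiftRight (Nat.shiftRight TAB (Nat.mul 512 u))
        (Nat.mul 64 v)).testBit (8 * w + d) = TAB.testBit (512 * u + 64 * v + 8 * w + d) := by
      intro u v w
      show ((TAB >>> (512 * u)) >>> (64 * v)).testBit (8 * w + d) = _
      rw [Nat.testBit_shiftRight, Nat.testBit_shiftRight]
      congr 1
      ring
    rw [e, e, e]
    exact ht
  have hm0 : Nat.beq m 0 = false := beq0_of_testBit hmd
  have hmk : kk.testBit d = true → Nat.beq (Nat.land m kk) 0 = false := by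
    intro hk
    refine beq0_of_testBit (d := d) ?_
    show (m &&& kk).testBit d = true
    rw [Nat.testBit_and, hmd, hk]
    rfl
  cases hb : Nat.beq (Nat.land m kk) 0
  · rw [hb] at h1
    have h2 := Nat.le_of_ble_eq_true h1
    have h3 : L + lk x.u y.f + (lk x.w z.f + lk y.w z.g) ≤
        R + lk wr x.n + lk wq y.n + lk wp z.n := h2
    exact ⟨fun _ => h3, le_trans h3 (Nat.le_add_right _ _)⟩
  · rw [hb, hm0] at h1
    have h2 := Nat.le_of_ble_eq_true h1
    refine ⟨fun hk => ?_, h2⟩
    rw [hmk hk] at hb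
    exact absurd hb (by simp)

/-- **Soundness of the main check** -/
theorem chkT_sound {offw : Nat} {wn : Nat → Nat} (ho : T.Ok offw wn) {p q r : Nat} (hpq : p ≤ q)
    (hqr : q ≤ r) (hr : r < T.nt) (h : T.chkT offw wn p q r = true) {A B C d : Nat}
    (hA : A < 512) (hB : B < 512)
    (hC : C < 512) (vA : T.vp p q A = true) (vB : T.vp p r B = true) (vC : T.vp q r C = true)
    (hd : d < 8) (ht : T.tst A B C d = true) : T.VV p q r A B C (na d) ≤ 0 := by
  have hp : p < T.nt := by omega
  have hq : q < T.nt := by omega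
  obtain ⟨x, hx, xa, xb, xc, xn, xf, xg, xf', xg', xu, xw⟩ := ho.mem p q hpq hq A hA vA
  obtain ⟨y, hy, ya, yb, yc, yn, yf, yg, yf', yg', yu, yw⟩ :=
    ho.mem p r (hpq.trans hqr) hr B hB vB
  obtain ⟨z, hz, za, zb, zc, zn, zf, zg, zf', zg', zu, zw⟩ := ho.mem q r hqr hr C hC vC
  have ht' : (T.TAB.testBit (512 * x.a + 64 * y.a + 8 * z.a + d) &&
      T.TAB.testBit (512 * x.b + 64 * y.b + 8 * z.b + d) &&
      T.TAB.testBit (512 * x.c + 64 * y.c + 8 * z.c + d)) = true := by
    rw [xa, xb, xc, ya, yb, yc, za, zb, zc]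
    exact ht
  set M1 := lk x.u y.f with hM1
  set M2 := lk x.w z.f with hM2
  set M3 := lk y.w z.g with hM3
  have q1 : T.Mt p (T.fl p q A) (T.fl p r B) = (M1 : ℤ) - T.off := by
    unfold Mt
    rw [← xf, ← yf, if_pos ⟨xf', yf'⟩, hM1, xu]
  have q2 : T.Mt q (T.fl q p (rv3 A)) (T.fl q r C) = (M2 : ℤ) - T.off := by
    unfold Mt
    rw [← xg, ← zf, if_pos ⟨xg', zf'⟩, hM2, xw]
  have q3 : T.Mt r (T.fl r p (rv3 B)) (T.fl r q (rv3 C)) = (M3 : ℤ) - T.off := by
    unfold Mt
    rw [← yg, ← zg, if_pos ⟨yg', zg'⟩, hM3, yw]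
  have c1 : T.Q0 p q = (T.q0 p q : ℤ) - T.off0 := if_pos ⟨hp, hq⟩
  have c2 : T.Q0 p r = (T.q0 p r : ℤ) - T.off0 := if_pos ⟨hp, hr⟩
  have c3 : T.Q0 q r = (T.q0 q r : ℤ) - T.off0 := if_pos ⟨hq, hr⟩
  have z1 : T.Z p q = (T.z p q : ℤ) - T.offz := if_pos ⟨hp, hq⟩
  have z2 : T.Z p r = (T.z p r : ℤ) - T.offz := if_pos ⟨hp, hr⟩
  have z3 : T.Z q r = (T.z q r : ℤ) - T.offz := if_pos ⟨hq, hr⟩
  have w1 := T.NN_eq ho hp C
  have w2 := T.NN_eq ho hq B
  have w3 := T.NN_eq ho hr A
  rw [← zn] at w1
  rw [← yn] at w2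
  rw [← xn] at w3
  have k17 : d % 4 = 0 → (17 : Nat).testBit d = true := by
    intro h4
    have : d = 0 ∨ d = 4 := by omega
    rcases this with rfl | rfl <;> decide
  have k238 : d % 4 ≠ 0 → (238 : Nat).testBit d = true := by
    intro h4
    interval_cases d <;> first | exact absurd rfl h4 | decide
  unfold VV
  rw [q1, q2, q3, c1, c2, c3, z1, z2, z3, w1, w2, w3]
  unfold Mu
  rw [chkT] at h
  cases hb : Nat.ble (T.z p q + T.z p r + T.z q r + 3 * T.offm)
      (T.mu p + T.mu q + T.mu r + 3 * T.offz)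
  · rw [hb] at h
    have hlt : T.mu p + T.mu q + T.mu r + 3 * T.offz ≤ T.z p q + T.z p r + T.z q r +
        3 * T.offm := by
      by_contra hcon
      have := Nat.ble_eq_true_of_le (Nat.le_of_lt (Nat.lt_of_not_le hcon))
      rw [this] at hb
      exact absurd hb (by simp)
    obtain ⟨s1, s2⟩ := chkA_one h hx hy hz hd ht'
    by_cases h4 : d % 4 = 0
    · have e0 : na d = 0 := if_pos h4
      rw [e0]
      have s2' : ((T.q0 p q + T.q0 p r + T.q0 q r) + 5 * (T.z p q + T.z p r + T.z q r) +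
        (15 * T.offm + 3 * offw) : ℤ) + M1 + (M2 + M3) ≤
        (3 * T.off0 + 15 * T.offz + 5 * (T.mu p + T.mu q + T.mu r) + 3 * T.off) +
          lk (wn r) x.n + lk (wn q) y.n + lk (wn p) z.n +
        9 * ((T.z p q + T.z p r + T.z q r + 3 * T.offm) -
        (T.mu p + T.mu q + T.mu r + 3 * T.offz)) := by
        have := s2
        rw [← hM1, ← hM2, ← hM3] at this
        have h5 : ((9 * ((T.z p q + T.z p r + T.z q r + 3 * T.offm) -
          (T.mu p + T.mu q + T.mu r + 3 * T.offz)) : ℕ) : ℤ) =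
          9 * ((T.z p q + T.z p r + T.z q r + 3 * T.offm) -
          (T.mu p + T.mu q + T.mu r + 3 * T.offz)) := by
          rw [Nat.cast_mul, Nat.cast_sub hlt]; push_cast; ring
        rw [← h5]
        exact_mod_cast this
      push_cast
      linarith
    · have e1 : na d = 1 := if_neg h4
      rw [e1]
      have s1' : ((T.q0 p q + T.q0 p r + T.q0 q r) + 5 * (T.z p q + T.z p r + T.z q r) +
        (15 * T.offm + 3 * offw) : ℤ) + M1 + (M2 + M3) ≤
        (3 * T.off0 + 15 * T.offz + 5 * (T.mu p + T.mu q + T.mu r) + 3 * T.off) +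
          lk (wn r) x.n + lk (wn q) y.n + lk (wn p) z.n := by
        exact_mod_cast s1 (k238 h4)
      push_cast
      linarith
  · rw [hb] at h
    have hle : T.z p q + T.z p r + T.z q r + 3 * T.offm ≤ T.mu p + T.mu q + T.mu r +
        3 * T.offz := Nat.le_of_ble_eq_true hb
    obtain ⟨s1, s2⟩ := chkA_one h hx hy hz hd ht'
    by_cases h4 : d % 4 = 0
    · have e0 : na d = 0 := if_pos h4
      rw [e0]
      have s1' : ((T.q0 p q + T.q0 p r + T.q0 q r) + 4 * (T.mu p + T.mu q + T.mu r) +
        (12 * T.offz + 3 * offw) : ℤ) + M1 + (M2 + M3) ≤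
        (3 * T.off0 + 4 * (T.z p q + T.z p r + T.z q r) + 12 * T.offm + 3 * T.off) +
          lk (wn r) x.n + lk (wn q) y.n + lk (wn p) z.n := by
        exact_mod_cast s1 (k17 h4)
      push_cast
      linarith
    · have e1 : na d = 1 := if_neg h4
      rw [e1]
      have s2' : ((T.q0 p q + T.q0 p r + T.q0 q r) + 4 * (T.mu p + T.mu q + T.mu r) +
        (12 * T.offz + 3 * offw) : ℤ) + M1 + (M2 + M3) ≤
        (3 * T.off0 + 4 * (T.z p q + T.z p r + T.z q r) + 12 * T.offm + 3 * T.off) +
          lk (wn r) x.n + lk (wn q) y.n + lk (wn p) z.n +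
        9 * ((T.mu p + T.mu q + T.mu r + 3 * T.offz) -
          (T.z p q + T.z p r + T.z q r + 3 * T.offm)) := by
        have := s2
        have h5 : ((9 * ((T.mu p + T.mu q + T.mu r + 3 * T.offz) -
          (T.z p q + T.z p r + T.z q r + 3 * T.offm)) : ℕ) : ℤ) =
          9 * ((T.mu p + T.mu q + T.mu r + 3 * T.offz) -
          (T.z p q + T.z p r + T.z q r + 3 * T.offm)) := by
          rw [Nat.cast_mul, Nat.cast_sub hle]; push_cast; ring
        rw [← h5]
        exact_mod_cast this
      push_cast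
      linarith

end Tb

end Pool.Agent.AKW
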